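import Mathlib
import Pool.Prelude.Def_H_5bc12717

/-! Definitions for MP_02b4f7_co: symmetric rendezvous on a finite graph. -/

open MeasureTheory
open scoped ENNReal

namespace Pool.Agent.P.MP_02b4f7_co

/-- Walk schedules `x_1, x_2, ...` on `G`: at each step stay or move to an adjacent vertex. -/
def Schedule {V : Type} (G : SimpleGraph V) : Type :=
  {x : ℕ+ → V // ∀ t : ℕ+, x (t + 1) = x t ∨ G.Adj (x t) (x (t + 1))}

/-- Schedules carry the product sigma-algebra, restricted to the subtype. -/
instance scheduleMeasurableSpace {V : Type} [MeasurableSpace V] (G : SimpleGraph V) :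
    MeasurableSpace (Schedule G) :=
  Subtype.instMeasurableSpace

/-- The probability that the rendezvous time exceeds `T`, when `x`, `y` are independent with law
`D` and the automorphism `π` is uniform and independent of them. -/
noncomputable def failProb {V : Type} [MeasurableSpace V] (G : SimpleGraph V)
    (D : Measure (Schedule G)) (T : ℝ) : ℝ≥0∞ :=
  (∑' π : SimpleGraph.Iso G G,
    (D.prod D) {p | ∀ t : ℕ+, ((t : ℕ) : ℝ) ≤ T → p.1.1 t ≠ π (p.2.1 t)}) /
      (Nat.card (SimpleGraph.Iso G G) : ℝ≥0∞)

end Pool.Agent.P.MP_02b4f7_co
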