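import Pool.Agent.P.MP_02b4f7_co.Walk

/-! Equidistribution of Hamming weights modulo a fixed integer. -/

open Finset Filter Topology

namespace Pool.Agent.P.MP_02b4f7_co

/-- Hamming weight -/
def wt {ι : Type} [Fintype ι] (p : ι → Bool) : ℕ := hammingDist (fun _ => false) p

theorem sum_face_pow {ι : Type} [Fintype ι] [DecidableEq ι] (S : Finset ι) (z : ℂ) :
    ∑ p ∈ face S, z ^ wt p = (1 + z) ^ Sᶜ.card := by
  have h1 : ∀ p : ι → Bool, z ^ wt p = ∏ i, (if p i = true then z else 1) := by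
    intro p
    rw [Finset.prod_ite, Finset.prod_const_one, mul_one, Finset.prod_const, wt, hammingDist]
    congr 2
    ext i
    simp
  simp only [h1]
  rw [face, ← Finset.prod_univ_sum (f := fun (_ : ι) (b : Bool) => if b = true then z else 1),
    ← Finset.prod_mul_prod_compl S, Finset.prod_eq_one (fun i hi => by simp [hi]), one_mul,
    Finset.prod_congr rfl (g := fun _ => 1 + z)
      (fun i hi => by simp [Finset.mem_compl.1 hi, add_comm])]
  simp

theorem norm_one_add_lt {z : ℂ} (h1 : ‖z‖ = 1) (h2 : z ≠ 1) : ‖1 + z‖ < 2 := by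
  have h3 : z.re < 1 := by
    refine lt_of_le_of_ne ((Complex.re_le_norm z).trans h1.le) fun e => h2 ?_
    have h4 : z.re ^ 2 + z.im ^ 2 = 1 := by
      have := Complex.sq_norm z
      rw [h1, Complex.normSq_apply] at this
      nlinarith
    have h5 : z.im = 0 := by
      rw [e] at h4
      nlinarith
    exact Complex.ext e h5
  have h4 : ‖1 + z‖ ^ 2 = 2 + 2 * z.re := by
    have := Complex.sq_norm z
    rw [h1, Complex.normSq_apply] at this
    rw [Complex.sq_norm, Complex.normSq_apply]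
    simp only [Complex.add_re, Complex.one_re, Complex.add_im, Complex.one_im, zero_add]
    nlinarith
  nlinarith [norm_nonneg (1 + z)]

theorem equi (q : ℕ) [NeZero q] : ∃ δ : ℕ → ℝ, Tendsto δ atTop (𝓝 0) ∧
    ∀ (ι : Type) [Fintype ι] [DecidableEq ι] (S : Finset ι) (r : ZMod q),
      (((face S).filter fun p => (wt p : ZMod q) = r).card : ℝ) ≤
        2 ^ Sᶜ.card * (1 / q + δ Sᶜ.card) := by
  classical
  refine ⟨fun D => ∑ ψ ∈ (univ : Finset (AddChar (ZMod q) ℂ)).erase 0, (‖1 + ψ 1‖ / 2) ^ D,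
    ?_, fun ι _ _ S r => ?_⟩
  · suffices h : Tendsto (fun D => ∑ ψ ∈ (univ : Finset (AddChar (ZMod q) ℂ)).erase 0,
        (‖1 + ψ 1‖ / 2) ^ D) atTop
        (𝓝 (∑ _ψ ∈ (univ : Finset (AddChar (ZMod q) ℂ)).erase 0, (0 : ℝ))) by simpa using h
    refine tendsto_finsetSum _ fun ψ hψ => tendsto_pow_atTop_nhds_zero_of_lt_one
      (by positivity) ?_
    rw [div_lt_one two_pos]
    refine norm_one_add_lt (AddChar.norm_apply ψ 1) fun e => (Finset.mem_erase.1 hψ).1 ?_
    ext a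
    rw [← ZMod.natCast_zmod_val a, ← nsmul_one, AddChar.map_nsmul_eq_pow, e]
    simp
  · have hq : (0 : ℝ) < q := by exact_mod_cast Nat.pos_of_ne_zero (NeZero.ne q)
    have hq1 : (1 : ℝ) ≤ q := by exact_mod_cast Nat.pos_of_ne_zero (NeZero.ne q)
    have h1 : ((q : ℂ) * ((face S).filter fun p => (wt p : ZMod q) = r).card) =
        ∑ ψ : AddChar (ZMod q) ℂ, ψ (-r) * (1 + ψ 1) ^ Sᶜ.card := by
      simp only [← sum_face_pow, Finset.mul_sum, ← AddChar.map_nsmul_eq_pow,
        ← AddChar.map_add_eq_mul]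
      rw [Finset.sum_comm]
      simp only [AddChar.sum_apply_eq_ite, ZMod.card, nsmul_one, neg_add_eq_zero]
      rw [← Finset.sum_filter, Finset.sum_const, nsmul_eq_mul, mul_comm]
      simp only [eq_comm]
    have h2 : (q : ℝ) * ((face S).filter fun p => (wt p : ZMod q) = r).card ≤
        ∑ ψ : AddChar (ZMod q) ℂ, ‖1 + ψ 1‖ ^ Sᶜ.card := by
      have := congrArg norm h1
      rw [norm_mul, Complex.norm_natCast, Complex.norm_natCast] at this
      rw [this]
      refine (norm_sum_le _ _).trans (le_of_eq (Finset.sum_congr rfl fun ψ _ => ?_))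
      rw [norm_mul, AddChar.norm_apply, one_mul, norm_pow]
    rw [← Finset.add_sum_erase _ _ (Finset.mem_univ (0 : AddChar (ZMod q) ℂ))] at h2
    have h3 : ‖1 + (0 : AddChar (ZMod q) ℂ) 1‖ = 2 := by
      simp only [AddChar.zero_apply]
      norm_num
    rw [h3] at h2
    have h4 : ∑ ψ ∈ (univ : Finset (AddChar (ZMod q) ℂ)).erase 0, ‖1 + ψ 1‖ ^ Sᶜ.card =
        2 ^ Sᶜ.card * ∑ ψ ∈ (univ : Finset (AddChar (ZMod q) ℂ)).erase 0,
          (‖1 + ψ 1‖ / 2) ^ Sᶜ.card := by
      rw [Finset.mul_sum]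
      refine Finset.sum_congr rfl fun ψ _ => ?_
      rw [div_pow]
      field_simp
    rw [h4] at h2
    set δ := ∑ ψ ∈ (univ : Finset (AddChar (ZMod q) ℂ)).erase 0, (‖1 + ψ 1‖ / 2) ^ Sᶜ.card
    have hδ : 0 ≤ δ := Finset.sum_nonneg fun _ _ => by positivity
    have h5 : (2 : ℝ) ^ Sᶜ.card + 2 ^ Sᶜ.card * δ ≤ q * (2 ^ Sᶜ.card * (1 / q + δ)) := by
      have : (q : ℝ) * (2 ^ Sᶜ.card * (1 / q + δ)) = 2 ^ Sᶜ.card + q * (2 ^ Sᶜ.card * δ) := by
        field_simp
      rw [this]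
      have : (0 : ℝ) ≤ 2 ^ Sᶜ.card * δ := by positivity
      nlinarith
    exact le_of_mul_le_mul_left (h2.trans h5) hq

end Pool.Agent.P.MP_02b4f7_co
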