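import Pool.Agent.P.MP_02b4f7_co.Defs
import Pool.Agent.P.MP_02b4f7_co.Equi

/-! The strategy and its analysis. -/

open Finset Filter Topology MeasureTheory
open scoped ENNReal

namespace Pool.Agent.P.MP_02b4f7_co

/-- the out-neighbourhood of `a` in the tournament coded by `s` -/
def outN {m : ℕ} (s : Fin m → Bool) (a : Fin m) : Finset (Fin m) :=
  univ.filter fun b => b ≠ a ∧ (xor (s a) (s b) = decide (a < b))

theorem not_mem_outN {m : ℕ} (s : Fin m → Bool) (a : Fin m) : a ∉ outN s a := by simp [outN]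

theorem outN_total {m : ℕ} (s : Fin m → Bool) {a b : Fin m} (h : a ≠ b) :
    b ∈ outN s a ∨ a ∈ outN s b := by
  simp only [outN, mem_filter, mem_univ, true_and, ne_eq, h, h.symm, not_false_eq_true]
  rcases lt_or_gt_of_ne h with h1 | h1
  · simp only [h1, h1.not_gt, decide_true, decide_false]
    cases s a <;> cases s b <;> simp
  · simp only [h1, h1.not_gt, decide_true, decide_false]
    cases s a <;> cases s b <;> simp

theorem card_outN_fiber {m : ℕ} (a : Fin m) (t : Finset (Fin m)) :
    (univ.filter fun s : Fin m → Bool => outN s a = t).card ≤ 2 := by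
  have : (2 : ℕ) = (univ : Finset Bool).card := by simp
  rw [this]
  refine Finset.card_le_card_of_injOn (fun s => s a) (fun _ _ => mem_coe.2 (mem_univ _)) ?_
  intro s hs s' hs' h
  simp only [coe_filter, mem_univ, true_and, Set.mem_ofPred_eq] at hs hs'
  funext b
  by_cases hb : b = a
  · rw [hb]
    exact h
  · have h1 : b ∈ outN s a ↔ b ∈ outN s' a := by rw [hs, hs']
    simp only [outN, mem_filter, mem_univ, true_and, ne_eq, hb, not_false_eq_true] at h1
    have h2 : s a = s' a := h
    rw [h2] at h1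
    revert h1
    cases s' a <;> cases s b <;> cases s' b <;> cases decide (a < b) <;> simp

theorem dist_iso_le {d : ℕ} (π : SimpleGraph.Iso (SimpleGraph.hypercube d) (SimpleGraph.hypercube d))
    (n : ℕ) : ∀ x y : Fin d → Bool, hammingDist x y = n → hammingDist (π x) (π y) ≤ n := by
  induction n with
  | zero =>
    intro x y h
    rw [hammingDist_eq_zero.1 h, hammingDist_self]
  | succ n ih =>
    intro x y h
    have hne : x ≠ y := hammingDist_ne_zero.1 (by omega)
    obtain ⟨i, hi⟩ := Function.ne_iff.1 hne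
    have h1 : hammingDist (flp i x) y = n := by
      have e : (univ.filter fun j => flp i x j ≠ y j) = (univ.filter fun j => x j ≠ y j).erase i := by
        ext j
        by_cases hj : j = i
        · subst hj
          simp only [flp_self, mem_filter, mem_univ, true_and, mem_erase, ne_eq, not_true_eq_false,
            false_and, iff_false, not_not]
          revert hi
          cases x j <;> cases y j <;> simp
        · simp [flp_ne hj, hj]
      rw [hammingDist, e, Finset.card_erase_of_mem (by simpa using hi)]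
      rw [hammingDist] at h
      omega
    have h2 : hammingDist (π x) (π (flp i x)) = 1 :=
      π.map_rel_iff.2 (show (SimpleGraph.hypercube d).Adj x (flp i x) from dist_flp i x)
    have h3 := hammingDist_triangle (π x) (π (flp i x)) (π y)
    have h4 := ih _ _ h1
    omega

theorem wt_iso {d : ℕ} (π : SimpleGraph.Iso (SimpleGraph.hypercube d) (SimpleGraph.hypercube d)) :
    wt (π.symm fun _ => false) = wt (π fun _ => false) := by
  have h1 := dist_iso_le π _ (π.symm fun _ => false) (fun _ => false) rfl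
  have h2 := dist_iso_le π.symm _ (fun _ => false) (π fun _ => false) rfl
  rw [RelIso.apply_symm_apply] at h1
  have e : π.symm (π fun _ => false) = fun _ => false := RelIso.symm_apply_apply _ _
  rw [e] at h2
  rw [wt, wt, hammingDist_comm]
  omega

theorem wt_proj {ι : Type} [Fintype ι] [DecidableEq ι] (S : Finset ι) (c : ι → Bool) :
    ∃ j ≤ S.card, wt c = wt (proj S c) + j := by
  have h1 : wt (proj S c) ≤ wt c := by
    refine Finset.card_le_card fun i => ?_
    simp only [proj, mem_filter, mem_univ, true_and]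
    split_ifs <;> simp
  have h2 : hammingDist (proj S c) c ≤ S.card := by
    refine Finset.card_le_card fun i => ?_
    simp only [proj, mem_filter, mem_univ, true_and]
    split_ifs with h <;> simp [h]
  have h3 := hammingDist_triangle (fun _ => false) (proj S c) c
  refine ⟨wt c - wt (proj S c), ?_, by omega⟩
  unfold wt at *
  omega

theorem segments (α : ℝ) (hα : 2 < α) (m : ℕ) :
    ∃ cls : ℕ → Fin m → Bool, ∀ᶠ d in atTop, ∀ (a : Fin m) (t : Finset (Fin m)),
      ∃ l, Path (fun _ : Fin d => false) l (fun _ => false) ∧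
        (l.length + 1 : ℝ) ≤ α * 2 ^ d / 2 ^ m ∧ ∀ c, outN (cls (wt c)) a = t → c ∈ l := by
  classical
  set ε := (α - 2) / 4 with hε
  have hε0 : 0 < ε := by rw [hε]; linarith
  obtain ⟨k, hk⟩ : ∃ k : ℕ, (2 : ℝ) ^ m / ε ≤ 2 ^ k := by
    obtain ⟨k, hk⟩ := pow_unbounded_of_one_lt ((2 : ℝ) ^ m / ε) one_lt_two
    exact ⟨k, hk.le⟩
  obtain ⟨l, hl⟩ := exists_nat_gt (2 * k / ε)
  have hl0 : (0 : ℝ) < l := lt_of_le_of_lt (by positivity) hl
  have hl1 : 0 < l := by exact_mod_cast hl0
  let e : Fin (2 ^ m) ≃ (Fin m → Bool) := Fintype.equivOfCardEq (by simp)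
  have : NeZero (l * 2 ^ m) := ⟨by positivity⟩
  obtain ⟨δ, hδ, hequi⟩ := equi (l * 2 ^ m)
  refine ⟨fun n => e ⟨n / l % 2 ^ m, Nat.mod_lt _ (by positivity)⟩, ?_⟩
  have h1 : ∀ᶠ d in atTop, 2 * ((l : ℝ) + k) * 2 ^ m * δ (d - k) ≤ ε := by
    have := ((hδ.comp (tendsto_sub_atTop_nat k)).const_mul (2 * ((l : ℝ) + k) * 2 ^ m))
    rw [mul_zero] at this
    exact this.eventually (ge_mem_nhds hε0)
  filter_upwards [h1, eventually_ge_atTop k] with d hd1 hd2 a t
  obtain ⟨S, -, hS⟩ := Finset.exists_subset_card_eq (s := (univ : Finset (Fin d))) (n := k)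
    (by simpa using hd2)
  have hSc : Sᶜ.card = d - k := by rw [Finset.card_compl, hS, Fintype.card_fin]
  let W := univ.filter fun s : Fin m → Bool => outN s a = t
  let Res : Finset (ZMod (l * 2 ^ m)) := (W ×ˢ range (l + k)).image fun x =>
    (((e.symm x.1 : ℕ) * l + x.2 : ℕ) : ZMod (l * 2 ^ m)) - k
  have hRes : Res.card ≤ 2 * (l + k) := by
    refine Finset.card_image_le.trans ?_
    rw [Finset.card_product, Finset.card_range]
    exact Nat.mul_le_mul_right _ (card_outN_fiber a t)
  obtain ⟨L, p, hlen, hcov⟩ := product_tour S fun p => (wt p : ZMod (l * 2 ^ m)) ∈ Res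
  refine ⟨L, p, ?_, fun c hc => hcov c ?_⟩
  · have h2 : (((face S).filter fun p => (wt p : ZMod (l * 2 ^ m)) ∈ Res).card : ℝ) ≤
        2 * (l + k) * (2 ^ (d - k) * (1 / (l * 2 ^ m) + δ (d - k))) := by
      rw [Finset.card_eq_sum_card_fiberwise
        (s := (face S).filter fun p => (wt p : ZMod (l * 2 ^ m)) ∈ Res) (t := Res)
        (f := fun p => (wt p : ZMod (l * 2 ^ m)))
        (fun p hp => mem_coe.2 (mem_filter.1 (mem_coe.1 hp)).2)]
      push_cast
      have h3 : ∀ r ∈ Res, (((face S).filter fun p => (wt p : ZMod (l * 2 ^ m)) ∈ Res).filter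
          (fun p => (wt p : ZMod (l * 2 ^ m)) = r)).card ≤
          (2 : ℝ) ^ (d - k) * (1 / (l * 2 ^ m) + δ (d - k)) := by
        intro r _
        have h4 := hequi (Fin d) S r
        rw [hSc] at h4
        push_cast at h4
        refine le_trans ?_ h4
        exact_mod_cast Finset.card_le_card
          (Finset.filter_subset_filter _ (Finset.filter_subset _ _))
      refine (Finset.sum_le_card_nsmul _ _ _ h3).trans ?_
      rw [nsmul_eq_mul]
      have h5 : (0 : ℝ) ≤ 2 ^ (d - k) * (1 / (l * 2 ^ m) + δ (d - k)) := by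
        have h4 := hequi (Fin d) S 0
        rw [hSc] at h4
        push_cast at h4
        exact le_trans (Nat.cast_nonneg _) h4
      gcongr
      exact_mod_cast hRes
    rw [hSc, hS] at hlen
    have h6 : (L.length : ℝ) ≤ 2 ^ (d - k) +
        2 * (l + k) * (2 ^ (d - k) * (1 / (l * 2 ^ m) + δ (d - k))) * 2 ^ k := by
      refine le_trans (Nat.cast_le.2 hlen) ?_
      push_cast
      gcongr
    have h7 : (2 : ℝ) ^ d = 2 ^ (d - k) * 2 ^ k := by rw [← pow_add, Nat.sub_add_cancel hd2]
    have h8 : (1 : ℝ) ≤ 2 ^ (d - k) := one_le_pow₀ one_le_two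
    rw [le_div_iff₀ (by positivity), h7]
    rw [div_le_iff₀ hε0] at hk
    rw [div_lt_iff₀ hε0] at hl
    set X : ℝ := 2 ^ (d - k)
    set Y : ℝ := 2 ^ k
    set Z : ℝ := 2 ^ m
    have hY : 0 < Y := by positivity
    have hZ : 0 < Z := by positivity
    have e1 : (X + 2 * (l + k) * (X * (1 / (l * Z) + δ (d - k))) * Y + 1) * Z =
        X * Z + Z + X * Y * (2 + 2 * k / l + 2 * (l + k) * Z * δ (d - k)) := by
      field_simp
      ring
    have h9 : 2 * (k : ℝ) / l ≤ ε := by
      rw [div_le_iff₀ hl0]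
      linarith
    have h10 : X * Z + Z ≤ X * Y * (2 * ε) := by nlinarith
    have h11 : X * Y * (2 + 2 * k / l + 2 * (l + k) * Z * δ (d - k)) ≤ X * Y * (2 + 2 * ε) :=
      mul_le_mul_of_nonneg_left (by linarith) (by positivity)
    calc ((L.length : ℝ) + 1) * Z
        ≤ (X + 2 * (l + k) * (X * (1 / (l * Z) + δ (d - k))) * Y + 1) * Z := by gcongr
      _ ≤ X * Y * (2 * ε) + X * Y * (2 + 2 * ε) := by rw [e1]; linarith
      _ = α * (X * Y) := by rw [hε]; ring
  · obtain ⟨j, hj, hwt⟩ := wt_proj S c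
    rw [hS] at hj
    refine Finset.mem_image.2 ⟨(e ⟨wt c / l % 2 ^ m, Nat.mod_lt _ (by positivity)⟩,
      wt c % l + (k - j)), Finset.mem_product.2 ⟨by simpa [W] using hc, ?_⟩, ?_⟩
    · have := Nat.mod_lt (wt c) hl1
      simp only [mem_range]
      omega
    · simp only [Equiv.symm_apply_apply]
      rw [sub_eq_iff_eq_add, ← Nat.cast_add, ZMod.natCast_eq_natCast_iff]
      have h2 := Nat.div_add_mod (wt c) l
      have h3 := Nat.div_add_mod (wt c / l) (2 ^ m)
      have h4 : wt (proj S c) + k =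
          wt c / l % 2 ^ m * l + (wt c % l + (k - j)) + l * 2 ^ m * (wt c / l / 2 ^ m) := by
        have : l * (wt c / l) = l * (2 ^ m * (wt c / l / 2 ^ m) + wt c / l % 2 ^ m) := by rw [h3]
        have h5 : wt (proj S c) + k = wt c + (k - j) := by omega
        rw [h5]
        nlinarith
      rw [h4]
      exact (Nat.modEq_iff_dvd' (Nat.le_add_right _ _)).2 (by simp)

theorem schedules (α : ℝ) (hα : 2 < α) (m : ℕ) : ∀ᶠ d in atTop,
    ∃ x : Fin m → Schedule (SimpleGraph.hypercube d), ∀ a b, a ≠ b →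
      ∀ π : SimpleGraph.Iso (SimpleGraph.hypercube d) (SimpleGraph.hypercube d),
        ∃ t : ℕ+, ((t : ℕ) : ℝ) ≤ α * 2 ^ d ∧ (x a).1 t = π ((x b).1 t) := by
  classical
  obtain ⟨cls, h⟩ := segments α hα m
  filter_upwards [h] with d hd
  set L := ⌊α * 2 ^ d / 2 ^ m⌋₊ with hL
  have hF : ∀ (a : Fin m) (t : Finset (Fin m)), ∃ f : ℕ → Fin d → Bool,
      f 0 = (fun _ => false) ∧ f L = (fun _ => false) ∧
      (∀ n, hammingDist (f n) (f (n + 1)) ≤ 1) ∧ (a ∈ t → ∀ n, f n = fun _ => false) ∧
      ∀ c, outN (cls (wt c)) a = t → ∃ n < L, f n = c := by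
    intro a t
    by_cases hat : a ∈ t
    · refine ⟨fun _ _ => false, rfl, rfl, fun n => by simp, fun _ _ => rfl, fun c hc => ?_⟩
      exact (not_mem_outN _ a (hc ▸ hat)).elim
    · obtain ⟨l, p, hlen, hc⟩ := hd a t
      have : l.length < L := Nat.succ_le_iff.1 (Nat.le_floor (by exact_mod_cast hlen))
      obtain ⟨f, h0, h1, h2, h3⟩ := fun_of_path p this
      exact ⟨f, h0, h1, h2, fun h => (hat h).elim, fun c h => h3 c (hc c h)⟩
  choose F hF0 hFL hFs hFh hFc using hF
  let e : Fin (2 ^ m) ≃ Finset (Fin m) := Fintype.equivOfCardEq (by simp)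
  let ph : ℕ → Finset (Fin m) := fun n => e ⟨n % 2 ^ m, Nat.mod_lt _ (by positivity)⟩
  let y : Fin m → ℕ → Fin d → Bool := fun a n => F a (ph (n / L)) (n % L)
  have hy : ∀ a n, hammingDist (y a n) (y a (n + 1)) ≤ 1 := by
    intro a n
    rcases Nat.eq_zero_or_pos L with h0 | hL0
    · simp only [y, h0, Nat.div_zero, Nat.mod_zero]
      exact hFs _ _ _
    · by_cases h1 : n % L + 1 < L
      · have e1 : (n + 1) / L = n / L := by
          rw [Nat.succ_div, if_neg, add_zero]
          intro h2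
          have := Nat.mod_eq_zero_of_dvd h2
          rw [Nat.add_mod, Nat.mod_eq_of_lt (a := 1) (by omega), Nat.mod_eq_of_lt h1] at this
          omega
        have e2 : (n + 1) % L = n % L + 1 := by
          have h3 := Nat.div_add_mod n L
          have h4 := Nat.div_add_mod (n + 1) L
          rw [e1] at h4
          omega
        simp only [y, e1, e2]
        exact hFs _ _ _
      · have h2 : n % L + 1 = L := by
          have := Nat.mod_lt n hL0
          omega
        have e2 : (n + 1) % L = 0 := by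
          rw [← Nat.mod_add_mod, h2, Nat.mod_self]
        simp only [y, e2, hF0]
        have := hFs a (ph (n / L)) (n % L)
        rwa [h2, hFL] at this
  refine ⟨fun a => ⟨fun t => y a t.natPred, fun t => ?_⟩, fun a b hab π => ?_⟩
  · have e1 : (t + 1).natPred = t.natPred + 1 := by
      have h1 := PNat.natPred_add_one (t + 1)
      have h2 := PNat.natPred_add_one t
      rw [PNat.add_coe, PNat.one_coe] at h1
      omega
    simp only [e1]
    rcases Nat.le_one_iff_eq_zero_or_eq_one.1 (hy a t.natPred) with h | h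
    · exact Or.inl (hammingDist_eq_zero.1 h).symm
    · exact Or.inr h
  · have key : ∀ (t : Finset (Fin m)) (n : ℕ), n < L → ∃ τ : ℕ+, ((τ : ℕ) : ℝ) ≤ α * 2 ^ d ∧
        ∀ a, y a τ.natPred = F a t n := by
      intro t n hn
      refine ⟨(L * e.symm t + n).succPNat, ?_, fun a => ?_⟩
      · have h1 : L * (e.symm t : ℕ) + n + 1 ≤ L * 2 ^ m := by
          have := Nat.mul_le_mul_left L (Nat.succ_le_of_lt (e.symm t).2)
          rw [Nat.mul_succ] at this
          omega
        have h2 : (L : ℝ) ≤ α * 2 ^ d / 2 ^ m := Nat.floor_le (by positivity)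
        rw [le_div_iff₀ (by positivity)] at h2
        refine le_trans ?_ h2
        exact_mod_cast h1
      · have hL0 : 0 < L := by omega
        simp only [y, Nat.natPred_succPNat, Nat.mul_add_mod, Nat.mod_eq_of_lt hn, ph,
          Nat.mul_add_div hL0, Nat.div_eq_of_lt hn, add_zero, Nat.mod_eq_of_lt (e.symm t).2,
          Fin.eta, Equiv.apply_symm_apply]
    rcases outN_total (cls (wt (π fun _ => false))) hab with h | h
    · obtain ⟨n, hn, hc⟩ := hFc a _ (π fun _ => false) rfl
      obtain ⟨τ, h1, h2⟩ := key (outN (cls (wt (π fun _ => false))) a) n hn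
      refine ⟨τ, h1, ?_⟩
      simp only [h2, hc, hFh b _ h]
    · rw [← wt_iso] at h
      obtain ⟨n, hn, hc⟩ := hFc b _ (π.symm fun _ => false) rfl
      obtain ⟨τ, h1, h2⟩ := key (outN (cls (wt (π.symm fun _ => false))) b) n hn
      refine ⟨τ, h1, ?_⟩
      simp only [h2, hc, hFh a _ h]
      exact (RelIso.apply_symm_apply _ _).symm

theorem failProb_le {V : Type} [Fintype V] [MeasurableSpace V] [DiscreteMeasurableSpace V]
    (G : SimpleGraph V) (T : ℝ) (m : ℕ) (x : Fin (m + 1) → Schedule G)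
    (hx : ∀ a b, a ≠ b → ∀ π : SimpleGraph.Iso G G,
      ∃ t : ℕ+, ((t : ℕ) : ℝ) ≤ T ∧ (x a).1 t = π ((x b).1 t)) :
    ∃ D : ProbabilityMeasure (Schedule G), failProb G D T ≤ ((m + 1 : ℕ) : ℝ≥0∞)⁻¹ := by
  classical
  let μ : Measure (Fin (m + 1)) := ProbabilityTheory.uniformOn Set.univ
  have hxm : Measurable x := measurable_of_countable x
  have : IsProbabilityMeasure (μ.map x) := Measure.isProbabilityMeasure_map hxm.aemeasurable
  refine ⟨⟨μ.map x, inferInstance⟩, ?_⟩
  have hdiag : (μ.prod μ) {p | p.1 = p.2} = ((m + 1 : ℕ) : ℝ≥0∞)⁻¹ := by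
    rw [Measure.prod_apply (MeasurableSet.of_discrete)]
    have : ∀ a : Fin (m + 1), μ (Prod.mk a ⁻¹' {p | p.1 = p.2}) = ((m + 1 : ℕ) : ℝ≥0∞)⁻¹ := by
      intro a
      have e : (Prod.mk a ⁻¹' {p : Fin (m + 1) × Fin (m + 1) | p.1 = p.2}) = {a} := by
        ext b
        simp [eq_comm]
      rw [e, ProbabilityTheory.uniformOn_univ]
      simp
    simp only [this, lintegral_const, measure_univ, mul_one]
  have h1 : ∀ π : SimpleGraph.Iso G G, ((μ.map x).prod (μ.map x))
      {p | ∀ t : ℕ+, ((t : ℕ) : ℝ) ≤ T → p.1.1 t ≠ π (p.2.1 t)} ≤ ((m + 1 : ℕ) : ℝ≥0∞)⁻¹ := by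
    intro π
    have hmeas : MeasurableSet {p : Schedule G × Schedule G |
        ∀ t : ℕ+, ((t : ℕ) : ℝ) ≤ T → p.1.1 t ≠ π (p.2.1 t)} := by
      simp only [Set.ofPred_forall]
      refine MeasurableSet.iInter fun t => MeasurableSet.iInter fun _ => ?_
      have h2 : Measurable fun p : Schedule G × Schedule G => (p.1.1 t, p.2.1 t) :=
        ((measurable_pi_apply t).comp (measurable_subtype_coe.comp measurable_fst)).prodMk
          ((measurable_pi_apply t).comp (measurable_subtype_coe.comp measurable_snd))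
      exact h2 (MeasurableSet.of_discrete (s := {q : V × V | q.1 ≠ π q.2}))
    rw [Measure.map_prod_map _ _ hxm hxm, Measure.map_apply (hxm.prodMap hxm) hmeas, ← hdiag]
    refine measure_mono fun p hp => ?_
    by_contra hne
    obtain ⟨t, ht, h⟩ := hx p.1 p.2 hne π
    exact hp t ht h
  have : Finite (SimpleGraph.Iso G G) :=
    Finite.of_injective (fun π : SimpleGraph.Iso G G => (π : V → V)) DFunLike.coe_injective
  have := Fintype.ofFinite (SimpleGraph.Iso G G)
  refine ENNReal.div_le_of_le_mul ((ENNReal.tsum_le_tsum h1).trans (le_of_eq ?_))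
  rw [tsum_fintype, Finset.sum_const, Nat.card_eq_fintype_card, nsmul_eq_mul, mul_comm,
    Finset.card_univ]

theorem main (α : ℝ) (hα : 2 < α) :
    ∃ D : (d : ℕ) → ProbabilityMeasure (Schedule (SimpleGraph.hypercube d)),
      Tendsto (fun d => failProb (SimpleGraph.hypercube d) (D d) (α * 2 ^ d)) atTop (𝓝 0) := by
  classical
  let P : ℕ → ℕ → Prop := fun d m =>
    ∃ D : ProbabilityMeasure (Schedule (SimpleGraph.hypercube d)),
      failProb (SimpleGraph.hypercube d) D (α * 2 ^ d) ≤ ((m + 1 : ℕ) : ℝ≥0∞)⁻¹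
  have h0 : ∀ d, P d 0 := fun d =>
    failProb_le _ _ 0 (fun _ => ⟨fun _ _ => false, fun _ => Or.inl rfl⟩)
      fun a b hab => (hab (Subsingleton.elim (α := Fin 1) a b)).elim
  have h1 : ∀ d, P d (Nat.findGreatest (P d) d) := fun d =>
    Nat.findGreatest_spec (Nat.zero_le d) (h0 d)
  have h2 : Tendsto (fun d => Nat.findGreatest (P d) d) atTop atTop := by
    rw [tendsto_atTop]
    intro m
    filter_upwards [schedules α hα (m + 1), eventually_ge_atTop m] with d ⟨x, hx⟩ hd
    exact Nat.le_findGreatest hd (failProb_le _ _ m x hx)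
  choose D hD using h1
  refine ⟨D, tendsto_of_tendsto_of_tendsto_of_le_of_le tendsto_const_nhds ?_
    (fun _ => zero_le) hD⟩
  exact ENNReal.tendsto_inv_nat_nhds_zero.comp ((tendsto_add_atTop_nat 1).comp h2)

end Pool.Agent.P.MP_02b4f7_co
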