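import Mathlib

/-! Gray-code tours of subcubes. -/

open Finset

set_option linter.unusedSectionVars false

namespace Pool.Agent.P.MP_02b4f7_co

variable {ι : Type} [Fintype ι] [DecidableEq ι]

/-- lazy walks, recorded as the list of vertices after the starting one -/
inductive Path : (ι → Bool) → List (ι → Bool) → (ι → Bool) → Prop
  | nil (v : ι → Bool) : Path v [] v
  | cons {u v w : ι → Bool} {l : List (ι → Bool)} :
      hammingDist u v ≤ 1 → Path v l w → Path u (v :: l) w

theorem Path.append {u v w : ι → Bool} {l l' : List (ι → Bool)} (h : Path u l v)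
    (h' : Path v l' w) : Path u (l ++ l') w := by
  induction h with
  | nil v => exact h'
  | cons hR _ ih => exact Path.cons hR (ih h')

/-- flip one coordinate -/
def flp (i : ι) (v : ι → Bool) : ι → Bool := Function.update v i (!v i)

theorem flp_self (i : ι) (v : ι → Bool) : flp i v i = !v i := by simp [flp]

theorem flp_ne {i j : ι} (h : j ≠ i) (v : ι → Bool) : flp i v j = v j := by simp [flp, h]

theorem dist_flp (i : ι) (v : ι → Bool) : hammingDist v (flp i v) = 1 := by
  rw [hammingDist, Finset.card_eq_one]
  refine ⟨i, ?_⟩
  ext j
  by_cases h : j = i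
  · subst h
    simp [flp_self]
  · simp [flp_ne h, h]

/-- flip at most one coordinate -/
def fo : Option ι → (ι → Bool) → ι → Bool
  | none, v => v
  | some i, v => flp i v

theorem dist_fo (j : Option ι) (v : ι → Bool) : hammingDist (fo j v) v ≤ 1 := by
  cases j with
  | none => simp [fo]
  | some i => rw [hammingDist_comm]; exact (dist_flp i v).le

theorem gray (S : Finset ι) : ∃ j : Option ι, (∀ i, j = some i → i ∈ S) ∧
    ∀ v : ι → Bool, ∃ l, Path v l (fo j v) ∧ l.length + 1 = 2 ^ S.card ∧
      ∀ w : ι → Bool, (∀ i, i ∉ S → w i = v i) → w ∈ v :: l := by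
  induction S using Finset.induction_on with
  | empty =>
    refine ⟨none, by simp, fun v => ⟨[], Path.nil v, by simp, fun w hw => ?_⟩⟩
    have : w = v := funext fun i => hw i (Finset.notMem_empty i)
    simp [this]
  | insert i S hi ih =>
    obtain ⟨j, hj, h⟩ := ih
    refine ⟨some i, by simp, fun v => ?_⟩
    obtain ⟨l1, p1, n1, c1⟩ := h v
    obtain ⟨l2, p2, n2, c2⟩ := h (flp i (fo j v))
    have hoff : ∀ (u : ι → Bool) i', i' ∉ S → fo j u i' = u i' := by
      intro u i' hi'
      cases j with
      | none => rfl
      | some k => exact flp_ne (fun e : i' = k => hi' (e ▸ hj k rfl)) u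
    have e : fo j (flp i (fo j v)) = fo (some i) v := by
      cases j with
      | none => rfl
      | some k =>
        have hk : k ≠ i := fun e => hi (e ▸ hj k rfl)
        funext x
        by_cases h1 : x = k
        · subst h1
          simp [fo, flp_self, flp_ne hk]
        · by_cases h2 : x = i
          · subst h2
            simp [fo, flp_self, flp_ne h1]
          · simp [fo, flp_ne h1, flp_ne h2]
    rw [e] at p2
    refine ⟨l1 ++ flp i (fo j v) :: l2, p1.append (Path.cons (dist_flp _ _).le p2), ?_,
      fun w hw => ?_⟩
    · rw [Finset.card_insert_of_notMem hi, pow_succ, List.length_append, List.length_cons]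
      omega
    · by_cases hwi : w i = v i
      · have := c1 w fun i' hi' => by
          by_cases e : i' = i
          · rw [e, hwi]
          · exact hw i' (by simp [e, hi'])
        rw [← List.cons_append]
        exact List.mem_append_left _ this
      · have := c2 w fun i' hi' => by
          by_cases e : i' = i
          · rw [e, flp_self, hoff v i hi]
            revert hwi
            cases w i <;> cases v i <;> simp
          · rw [flp_ne e, hoff v i' hi']
            exact hw i' (by simp [e, hi'])
        exact List.mem_cons_of_mem _ (List.mem_append_right _ this)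

theorem tour (S : Finset ι) (v : ι → Bool) : ∃ l, Path v l v ∧ l.length = 2 ^ S.card ∧
    ∀ w : ι → Bool, (∀ i, i ∉ S → w i = v i) → w ∈ l := by
  obtain ⟨j, -, h⟩ := gray S
  obtain ⟨l, p, n, c⟩ := h v
  refine ⟨l ++ [v], p.append (Path.cons (dist_fo j v) (Path.nil v)), by simpa using n,
    fun w hw => ?_⟩
  have := c w hw
  simp only [List.mem_cons, List.mem_append, List.not_mem_nil, or_false] at this ⊢
  exact this.symm

theorem expand (I : (ι → Bool) → List (ι → Bool)) (hI : ∀ p, Path p (I p) p)
    {u w : ι → Bool} {l : List (ι → Bool)} (h : Path u l w) :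
    Path u (l.flatMap fun p => p :: I p) w := by
  induction h with
  | nil v => exact Path.nil v
  | cons hR _ ih =>
    rw [List.flatMap_cons, List.cons_append]
    exact Path.cons hR ((hI _).append ih)

/-- the face of the cube where the coordinates in `S` vanish -/
def face (S : Finset ι) : Finset (ι → Bool) :=
  Fintype.piFinset fun i => if i ∈ S then {false} else univ

theorem mem_face {S : Finset ι} {p : ι → Bool} : p ∈ face S ↔ ∀ i ∈ S, p i = false := by
  simp only [face, Fintype.mem_piFinset]
  refine forall_congr' fun i => ?_
  split_ifs with h <;> simp [h]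

theorem card_face (S : Finset ι) : (face S).card = 2 ^ Sᶜ.card := by
  rw [face, Fintype.card_piFinset, ← Finset.prod_mul_prod_compl S,
    Finset.prod_eq_one (fun i hi => by simp [hi]), one_mul,
    Finset.prod_congr rfl (g := fun _ => 2) (fun i hi => by simp [Finset.mem_compl.1 hi])]
  simp

/-- zero out the coordinates in `S` -/
def proj (S : Finset ι) (c : ι → Bool) : ι → Bool := fun i => if i ∈ S then false else c i

theorem product_tour (S : Finset ι) (P : (ι → Bool) → Prop) [DecidablePred P] :
    ∃ l, Path (fun _ => false) l (fun _ => false) ∧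
      l.length ≤ 2 ^ Sᶜ.card + ((face S).filter P).card * 2 ^ S.card ∧
      ∀ c, P (proj S c) → c ∈ l := by
  classical
  choose T hT1 hT2 hT3 using tour S
  obtain ⟨l, p, n, c⟩ := tour Sᶜ (fun _ : ι => false)
  have hc : ∀ w ∈ face S, w ∈ l := fun w hw =>
    c w fun i hi => mem_face.1 hw i (by simpa using hi)
  refine ⟨l.flatMap fun p => p :: (if P p then T p else []), expand _ (fun q => ?_) p, ?_,
    fun w hw => ?_⟩
  · split_ifs
    · exact hT1 q
    · exact Path.nil q
  · have h1 : ∀ l : List (ι → Bool), (l.flatMap fun p => p :: (if P p then T p else [])).length =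
        l.length + l.countP P * 2 ^ S.card := by
      intro l
      induction l with
      | nil => simp
      | cons a l ih =>
        rw [List.flatMap_cons, List.length_append, ih, List.countP_cons]
        by_cases h : P a <;> simp [h, hT2] <;> ring
    rw [h1, n]
    gcongr
    have h2 : ((face S).filter fun p => ¬ P p).card ≤ l.countP fun p => ¬ P p := by
      rw [List.countP_eq_length_filter]
      refine le_trans (Finset.card_le_card ?_) (List.toFinset_card_le _)
      intro w hw
      simp only [Finset.mem_filter] at hw
      simp [hc w hw.1, hw.2]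
    have h3 := List.length_eq_countP_add_countP (fun p => decide (P p)) (l := l)
    have h4 := Finset.card_filter_add_card_filter_not (s := face S) P
    rw [card_face] at h4
    simp only [decide_eq_true_eq] at h3
    omega
  · rw [List.mem_flatMap]
    refine ⟨proj S w, hc _ (mem_face.2 fun i hi => by simp [proj, hi]), ?_⟩
    rw [if_pos hw]
    exact List.mem_cons_of_mem _ (hT3 _ _ fun i hi => by simp [proj, hi])

theorem path_getD {u : ι → Bool} {l : List (ι → Bool)} {w : ι → Bool} (h : Path u l w) (n : ℕ) :
    hammingDist ((u :: l).getD n w) ((u :: l).getD (n + 1) w) ≤ 1 := by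
  induction h generalizing n with
  | nil v => cases n <;> simp
  | cons hR hp ih =>
    cases n with
    | zero => simpa using hR
    | succ n => simpa using ih n

/-- a closed walk as a function of time -/
theorem fun_of_path {z : ι → Bool} {l : List (ι → Bool)} (h : Path z l z) {L : ℕ}
    (hL : l.length < L) : ∃ f : ℕ → ι → Bool, f 0 = z ∧ f L = z ∧
      (∀ n, hammingDist (f n) (f (n + 1)) ≤ 1) ∧ ∀ c ∈ l, ∃ n < L, f n = c := by
  refine ⟨fun n => (z :: l).getD n z, rfl, ?_, path_getD h, fun c hc => ?_⟩
  · exact List.getD_eq_default _ _ (by simpa using hL)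
  · obtain ⟨n, hn, rfl⟩ := List.getElem_of_mem hc
    exact ⟨n + 1, by omega, by simp [List.getElem?_eq_getElem hn]⟩

end Pool.Agent.P.MP_02b4f7_co
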